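import Pool.Agent.W544.PG.Defs4

/-!
# Isomorphisms of orthogonal Lie algebras are given by linear maps
-/

set_option autoImplicit false

open Matrix Finset Module

namespace Pool.Agent.W585.PG

open Pool.Agent.W544.PG

section basic
variable {n : ℕ}

theorem br_skew {y z : Matrix (Fin n) (Fin n) ℂ} (hy : yᵀ = -y) (hz : zᵀ = -z) :
    (br y z)ᵀ = -br y z := by
  unfold br
  rw [transpose_sub, transpose_mul, transpose_mul, hy, hz]
  simp only [mul_neg, neg_mul, neg_neg]
  abel

/-- the standard element -/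
noncomputable def re (a b : Fin n) : Matrix (Fin n) (Fin n) ℂ :=
  Complex.I • (single a b (1 : ℂ) - single b a (1 : ℂ))

theorem re_skew (a b : Fin n) : (re a b)ᵀ = -re a b := by
  unfold re
  rw [transpose_smul, transpose_sub, transpose_single, transpose_single, ← smul_neg, neg_sub]

theorem re_mid {a b : Fin n} {Y : Matrix (Fin n) (Fin n) ℂ} (hY : Yᵀ = -Y) :
    re a b * Y * re a b = (Complex.I * Y b a) • re a b := by
  have h1 : ∀ i j, Y j i = -Y i j := fun i j => by
    have := congrFun (congrFun hY i) j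
    simpa using this
  have haa : Y a a = 0 := by
    have := h1 a a
    have h2 : (2 : ℂ) * Y a a = 0 := by linear_combination this
    rcases mul_eq_zero.1 h2 with h | h
    · norm_num at h
    · exact h
  have hbb : Y b b = 0 := by
    have := h1 b b
    have h2 : (2 : ℂ) * Y b b = 0 := by linear_combination this
    rcases mul_eq_zero.1 h2 with h | h
    · norm_num at h
    · exact h
  unfold re
  rw [smul_mul_assoc, smul_mul_assoc, mul_smul_comm, smul_smul, smul_smul]
  have e : (single a b (1 : ℂ) - single b a 1) * Y * (single a b (1 : ℂ) - single b a 1) =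
      Y b a • (single a b (1 : ℂ) - single b a 1) := by
    have hba : Y a b = -Y b a := h1 b a
    have hneg : single b a (-Y b a) = -single b a (Y b a) := by
      ext i j
      simp only [Matrix.neg_apply, Matrix.single_apply]
      split_ifs <;> simp
    rw [sub_mul, sub_mul, mul_sub, mul_sub, single_mul_mul_single, single_mul_mul_single,
      single_mul_mul_single, single_mul_mul_single, one_mul, mul_one, one_mul, mul_one, one_mul,
      mul_one, one_mul, mul_one, haa, hbb, hba, hneg, single_zero, single_zero, smul_sub,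
      smul_single, smul_single, smul_eq_mul, mul_one]
    abel
  rw [e, smul_smul]
  congr 1
  ring

theorem re_cube {a b : Fin n} (hab : a ≠ b) : re a b * re a b * re a b = re a b := by
  rw [re_mid (re_skew a b)]
  have : Complex.I * re a b b a = 1 := by
    unfold re
    simp only [Matrix.smul_apply, Matrix.sub_apply, Matrix.single_apply, smul_eq_mul]
    simp [hab, hab.symm]
  rw [this, one_smul]

theorem re_trace {a b : Fin n} (hab : a ≠ b) : (re a b * re a b).trace = 2 := by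
  unfold re
  rw [smul_mul_assoc, mul_smul_comm, smul_smul, trace_smul, mul_sub, sub_mul, sub_mul,
    single_mul_single_same, single_mul_single_same,
    single_mul_single_of_ne (h := hab.symm), single_mul_single_of_ne (h := hab),
    trace_sub, trace_sub, trace_sub, trace_single_eq_same, trace_single_eq_same]
  simp
  norm_num

theorem ad_cube {r : Matrix (Fin n) (Fin n) ℂ} (h3 : r * r * r = r) {Y : Matrix (Fin n) (Fin n) ℂ}
    {c : ℂ} (hc : r * Y * r = c • r) : br r (br r (br r Y)) = br r Y := by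
  have e1 : br r (br r (br r Y)) = r * r * r * Y - (3 : ℂ) • (r * (r * Y * r)) +
      (3 : ℂ) • ((r * Y * r) * r) - Y * (r * r * r) := by
    unfold br
    simp only [mul_sub, sub_mul, mul_assoc]
    module
  rw [e1, h3, hc, mul_smul_comm, smul_mul_assoc]
  unfold br
  module

end basic

/-! ### coordinates -/

section coord
variable {n q : ℕ} {g : Matrix (Fin n) (I 1 q) ℂ} {g' : Matrix (I 1 q) (Fin n) ℂ}

theorem skew_of_So (e2 : g * g' = 1) (hB : gᵀ * g = B0 1 q) {y : Matrix (I 1 q) (I 1 q) ℂ}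
    (hy : So y) : (g * y * g')ᵀ = -(g * y * g') := by
  have t2 : g'ᵀ * gᵀ = 1 := by rw [← transpose_mul, e2, transpose_one]
  have h1 : g'ᵀ * (yᵀ * B0 1 q + B0 1 q * y) * g' = 0 := by
    have : yᵀ * B0 1 q + B0 1 q * y = 0 := hy
    rw [this, Matrix.mul_zero, Matrix.zero_mul]
  rw [← hB] at h1
  have h2 : g'ᵀ * (yᵀ * (gᵀ * g) + gᵀ * g * y) * g' = (g * y * g')ᵀ + g * y * g' := by
    rw [transpose_mul, transpose_mul, Matrix.mul_add, Matrix.add_mul]
    congr 1
    · calc g'ᵀ * (yᵀ * (gᵀ * g)) * g' = g'ᵀ * (yᵀ * gᵀ) * (g * g') := by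
            simp only [Matrix.mul_assoc]
        _ = _ := by rw [e2, Matrix.mul_one]
    · calc g'ᵀ * (gᵀ * g * y) * g' = (g'ᵀ * gᵀ) * (g * y * g') := by
            simp only [Matrix.mul_assoc]
        _ = _ := by rw [t2, Matrix.one_mul]
  rw [h2] at h1
  exact eq_neg_of_add_eq_zero_left h1

theorem So_of_skew (e2 : g * g' = 1) (hB : gᵀ * g = B0 1 q) {w : Matrix (Fin n) (Fin n) ℂ}
    (hw : wᵀ = -w) : So (g' * w * g) := by
  have t2 : g'ᵀ * gᵀ = 1 := by rw [← transpose_mul, e2, transpose_one]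
  show (g' * w * g)ᵀ * B0 1 q + B0 1 q * (g' * w * g) = 0
  rw [← hB]
  have h1 : (g' * w * g)ᵀ * (gᵀ * g) = gᵀ * wᵀ * g := by
    rw [transpose_mul, transpose_mul]
    calc gᵀ * (wᵀ * g'ᵀ) * (gᵀ * g) = gᵀ * wᵀ * (g'ᵀ * gᵀ) * g := by
          simp only [Matrix.mul_assoc]
      _ = _ := by rw [t2, Matrix.mul_one]
  have h2 : gᵀ * g * (g' * w * g) = gᵀ * w * g := by
    calc gᵀ * g * (g' * w * g) = gᵀ * (g * g') * w * g := by simp only [Matrix.mul_assoc]
      _ = _ := by rw [e2, Matrix.mul_one]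
  rw [h1, h2, hw, Matrix.mul_neg, Matrix.neg_mul, neg_add_cancel]

theorem back (e2 : g * g' = 1) (w : Matrix (Fin n) (Fin n) ℂ) : g * (g' * w * g) * g' = w := by
  calc g * (g' * w * g) * g' = (g * g') * w * (g * g') := by simp only [Matrix.mul_assoc]
    _ = w := by rw [e2, Matrix.one_mul, Matrix.mul_one]

theorem fwd (e1 : g' * g = 1) (y : Matrix (I 1 q) (I 1 q) ℂ) : g' * (g * y * g') * g = y := by
  calc g' * (g * y * g') * g = (g' * g) * y * (g' * g) := by simp only [Matrix.mul_assoc]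
    _ = y := by rw [e1, Matrix.one_mul, Matrix.mul_one]

theorem br_g (e1 : g' * g = 1) (a b : Matrix (I 1 q) (I 1 q) ℂ) :
    g * br a b * g' = br (g * a * g') (g * b * g') := by
  have h : ∀ a b : Matrix (I 1 q) (I 1 q) ℂ, g * a * g' * (g * b * g') = g * (a * b) * g' := by
    intro a b
    calc g * a * g' * (g * b * g') = g * a * (g' * g) * b * g' := by
          simp only [Matrix.mul_assoc]
      _ = g * (a * b) * g' := by rw [e1, Matrix.mul_one, Matrix.mul_assoc g a b]
  unfold br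
  rw [h, h, Matrix.mul_sub, Matrix.sub_mul]

theorem br_g' (e2 : g * g' = 1) (a b : Matrix (Fin n) (Fin n) ℂ) :
    g' * br a b * g = br (g' * a * g) (g' * b * g) := by
  have h : ∀ a b : Matrix (Fin n) (Fin n) ℂ, g' * a * g * (g' * b * g) = g' * (a * b) * g := by
    intro a b
    calc g' * a * g * (g' * b * g) = g' * a * (g * g') * b * g := by
          simp only [Matrix.mul_assoc]
      _ = g' * (a * b) * g := by rw [e2, Matrix.mul_one, Matrix.mul_assoc g' a b]
  unfold br
  rw [h, h, Matrix.mul_sub, Matrix.sub_mul]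

end coord

/-- the conjugated map -/
noncomputable def cj {n q : ℕ} (g : Matrix (Fin n) (I 1 q) ℂ) (g' : Matrix (I 1 q) (Fin n) ℂ)
    (k : Matrix (Fin n) (I 1 q) ℂ) (k' : Matrix (I 1 q) (Fin n) ℂ)
    (θ : Matrix (Fin n) (Fin n) ℂ →ₗ[ℂ] Matrix (Fin n) (Fin n) ℂ) :
    Matrix (I 1 q) (I 1 q) ℂ →ₗ[ℂ] Matrix (I 1 q) (I 1 q) ℂ where
  toFun y := k' * θ (g * y * g') * k
  map_add' a b := by
    rw [Matrix.mul_add, Matrix.add_mul, map_add, Matrix.mul_add, Matrix.add_mul]
  map_smul' c a := by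
    rw [Matrix.mul_smul, Matrix.smul_mul, map_smul, Matrix.mul_smul, Matrix.smul_mul,
      RingHom.id_apply]

theorem core (hnrm : S_nrm) (hrig : S_rig) {n : ℕ} (hn : 3 ≤ n)
    {θ : Matrix (Fin n) (Fin n) ℂ →ₗ[ℂ] Matrix (Fin n) (Fin n) ℂ} (hθ : IsoSo θ)
    (htr : ∀ y, yᵀ = -y → (θ y * θ y).trace = (y * y).trace)
    {r : Matrix (Fin n) (Fin n) ℂ} (hr : rᵀ = -r) (hr3 : r * r * r = r)
    (hr2 : (r * r).trace = 2) (hs3 : θ r * θ r * θ r = θ r) :
    ∃ A : Matrix (Fin n) (Fin n) ℂ, A ≠ 0 ∧ ∀ y, yᵀ = -y → A * y = θ y * A := by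
  obtain ⟨q, hq⟩ : ∃ q, n = 2 + q := ⟨n - 2, by omega⟩
  obtain ⟨g, g', g1, g2, g3, g4⟩ := hnrm n q hq r hr hr3 hr2
  obtain ⟨k, k', k1, k2, k3, k4⟩ := hnrm n q hq (θ r) (hθ.map r hr) hs3
    (by rw [htr r hr, hr2])
  have hcj : ∀ y, cj g g' k k' θ y = k' * θ (g * y * g') * k := fun _ => rfl
  have c1 : ∀ y, So y → So (cj g g' k k' θ y) := by
    intro y hy
    rw [hcj]
    exact So_of_skew k1 k3 (hθ.map _ (skew_of_So g1 g3 hy))
  have c2 : ∀ y, So y → cj g g' k k' θ y = 0 → y = 0 := by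
    intro y hy h0
    rw [hcj] at h0
    have h1 : θ (g * y * g') = 0 := by
      rw [← back k1 (θ (g * y * g')), h0, Matrix.mul_zero, Matrix.zero_mul]
    have h2 := hθ.inj _ (skew_of_So g1 g3 hy) h1
    rw [← fwd g2 y, h2, Matrix.mul_zero, Matrix.zero_mul]
  have c3 : ∀ z, So z → ∃ y, So y ∧ cj g g' k k' θ y = z := by
    intro z hz
    obtain ⟨w, hw, hwz⟩ := hθ.surj _ (skew_of_So k1 k3 hz)
    refine ⟨g' * w * g, So_of_skew g1 g3 hw, ?_⟩
    rw [hcj, back g1, hwz, fwd k2]
  have c4 : ∀ y z, So y → So z → cj g g' k k' θ (br y z) =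
      br (cj g g' k k' θ y) (cj g g' k k' θ z) := by
    intro y z hy hz
    rw [hcj, hcj, hcj, br_g g2, hθ.br _ _ (skew_of_So g1 g3 hy) (skew_of_So g1 g3 hz),
      br_g' k1]
  have c5 : cj g g' k k' θ (x0 1 q) = x0 1 q := by
    rw [hcj, ← g4, Matrix.mul_assoc r, g1, Matrix.mul_one, Matrix.mul_assoc, k4,
      ← Matrix.mul_assoc, k2, Matrix.one_mul]
  obtain ⟨A', hA0, hA⟩ := hrig q (by omega) (cj g g' k k' θ) c1 c2 c3 c4 c5
  refine ⟨k * A' * g', ?_, ?_⟩
  · intro h0
    apply hA0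
    have h1 : k' * (k * A' * g') * g = A' := by
      calc k' * (k * A' * g') * g = (k' * k) * A' * (g' * g) := by
            simp only [Matrix.mul_assoc]
        _ = A' := by rw [k2, g2, Matrix.one_mul, Matrix.mul_one]
    rw [← h1, h0, Matrix.mul_zero, Matrix.zero_mul]
  · intro w hw
    have h1 := hA (g' * w * g) (So_of_skew g1 g3 hw)
    rw [hcj, back g1] at h1
    calc k * A' * g' * w = k * A' * g' * w * (g * g') := by rw [g1, Matrix.mul_one]
      _ = k * (A' * (g' * w * g)) * g' := by simp only [Matrix.mul_assoc]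
      _ = k * (k' * θ w * k * A') * g' := by rw [h1]
      _ = (k * k') * θ w * (k * A' * g') := by simp only [Matrix.mul_assoc]
      _ = θ w * (k * A' * g') := by rw [k1, Matrix.one_mul]

theorem tht : S_kil → S_typ → S_nrm → S_rig → S_tht := by
  intro hkil htyp hnrm hrig n m p hn hm hp θ hθ x hx hx3 hx2 hs3
  obtain ⟨hnm, htr⟩ := hkil n m hn hm θ hθ
  subst hnm
  rcases hp with rfl | h8
  · exact core hnrm hrig hn hθ htr hx hx3 (by rw [hx2]; norm_num) hs3
  · have hab : (⟨0, by omega⟩ : Fin n) ≠ ⟨1, by omega⟩ := by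
      intro h
      have := congrArg Fin.val h
      simp at this
    obtain ⟨r, hr, hr3, hr2, hmid⟩ : ∃ r : Matrix (Fin n) (Fin n) ℂ, rᵀ = -r ∧
        r * r * r = r ∧ (r * r).trace = 2 ∧ ∀ Y : Matrix (Fin n) (Fin n) ℂ, Yᵀ = -Y →
          ∃ c : ℂ, r * Y * r = c • r :=
      ⟨re ⟨0, by omega⟩ ⟨1, by omega⟩, re_skew _ _, re_cube hab, re_trace hab,
        fun Y hY => ⟨_, re_mid hY⟩⟩
    refine core hnrm hrig hn hθ htr hr hr3 hr2 ?_
    refine htyp n hn h8 (θ r) (hθ.map r hr) (by rw [htr r hr, hr2]) ?_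
    intro Z hZ
    obtain ⟨Y, hY, rfl⟩ := hθ.surj Z hZ
    obtain ⟨c, hc⟩ := hmid Y hY
    rw [← hθ.br r Y hr hY, ← hθ.br r _ hr (br_skew hr hY),
      ← hθ.br r _ hr (br_skew hr (br_skew hr hY)), ad_cube hr3 hc]

end Pool.Agent.W585.PG

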